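import Mathlib
import Pool.Agent.Helper292.ForceCH

set_option autoImplicit false

/-!
# From diamond to a ladder system guessing families of finite sets
-/

namespace Pool.Agent.R582.Dow

open Cardinal Set
open Pool.Agent.Helper292.ForceCH (Om exists_bound ub lt_ub ub_le countable_Iio)

/-- `C` is closed and unbounded in `ω₁`. -/
def IsClubSet (C : Om → Prop) : Prop :=
  (∀ a, ∃ b, a < b ∧ C b) ∧
  ∀ a, ((∃ b, b < a) ∧ ∀ b, b < a → ∃ c, (b < c ∧ c < a) ∧ C c) → C a

/-- Diamond: there is a sequence of sets `A a ⊆ ω₁`, such that for every `S ⊆ ω₁` and every closed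
unbounded `C ⊆ ω₁` there is `a ∈ C` with `S ∩ a = A a ∩ a`. -/
def Diamond : Prop :=
  ∃ A : Om → Om → Prop, ∀ S C : Om → Prop, IsClubSet C →
    ∃ a, C a ∧ ∀ b, b < a → (S b ↔ A a b)

/-- A ladder system which contains cofinally many members of every family of finite sets. -/
def FinLadder (L : Om → Om → Prop) : Prop :=
  (∀ d a, L d a → a < d) ∧
  (∀ d c, c < d → ∃ F : Finset Om, ∀ a, L d a → a < c → a ∈ F) ∧
  ∀ F : Om → Finset Om, (∀ a, ∀ x ∈ F a, a < x) →
    ∀ e, ∃ d, e < d ∧ ∀ c, c < d → ∃ a, c < a ∧ a < d ∧ ∀ x ∈ F a, L d x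

theorem bdd {S : Set Om} (hS : S.Countable) : ∃ a, ∀ s ∈ S, s < a := by
  rcases S.eq_empty_or_nonempty with rfl | hne
  · obtain ⟨a⟩ : Nonempty Om := inferInstance
    exact ⟨a, by simp⟩
  · obtain ⟨f, hf⟩ := hS.exists_eq_range hne
    obtain ⟨a, ha⟩ := exists_bound f
    refine ⟨a, fun s hs => ?_⟩
    rw [hf] at hs
    obtain ⟨n, rfl⟩ := hs
    exact ha n

theorem countable_Iic' (a : Om) : (Iic a : Set Om).Countable := by
  have : Iic a = insert a (Iio a) := by
    ext z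
    simp [le_iff_eq_or_lt]
  rw [this]
  exact Set.Countable.insert _ (Set.countable_coe_iff.1 (countable_Iio _))

theorem club_closed (h : Om → Om) (e : Om) : IsClubSet fun d => e < d ∧ ∀ b, b < d → h b < d := by
  constructor
  · intro a
    have hnx : ∀ b : Om, ∃ c, b < c ∧ ∀ b' ≤ b, h b' < c := by
      intro b
      obtain ⟨c, hc⟩ := bdd ((countable_Iic' b).image h)
      obtain ⟨c', hc'⟩ := exists_bound fun _ : ℕ => max b c
      refine ⟨c', (le_max_left _ _).trans_lt (hc' 0), fun b' hb' => ?_⟩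
      exact (hc _ ⟨b', hb', rfl⟩).trans ((le_max_right _ _).trans_lt (hc' 0))
    choose nx hnx1 hnx2 using hnx
    let s : ℕ → Om := fun n => Nat.rec (max a e) (fun _ b => nx b) n
    have hs : ∀ n, s (n + 1) = nx (s n) := fun n => rfl
    refine ⟨ub s, (le_max_left a e).trans_lt (lt_ub s 0), (le_max_right a e).trans_lt (lt_ub s 0), ?_⟩
    intro b hb
    obtain ⟨n, hn⟩ := ub_le s hb
    exact (hnx2 (s n) b hn).trans (by rw [← hs]; exact lt_ub s (n + 1))
  · rintro a ⟨⟨b₀, hb₀⟩, hcl⟩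
    constructor
    · obtain ⟨c, ⟨-, hc⟩, hec, -⟩ := hcl b₀ hb₀
      exact hec.trans hc
    · intro b hb
      obtain ⟨c, ⟨hbc, hca⟩, -, hc⟩ := hcl b hb
      exact (hc b hbc).trans hca

theorem exists_seq (d : Om) (h0 : ∃ b, b < d) (hlim : ∀ b, b < d → ∃ c, b < c ∧ c < d) :
    ∃ s : ℕ → Om, StrictMono s ∧ (∀ n, s n < d) ∧ ∀ b, b < d → ∃ n, b < s n := by
  haveI : Countable {b : Om // b < d} := countable_Iio d
  haveI : Nonempty {b : Om // b < d} := ⟨⟨h0.choose, h0.choose_spec⟩⟩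
  obtain ⟨g, hg⟩ := exists_surjective_nat {b : Om // b < d}
  have h1 : ∀ b : {b : Om // b < d}, ∃ c : {b : Om // b < d}, b < c := fun b => by
    obtain ⟨c, hc, hc'⟩ := hlim b.1 b.2
    exact ⟨⟨c, hc'⟩, hc⟩
  choose nx hnx using h1
  let s : ℕ → {b : Om // b < d} := fun n => Nat.rec (g 0) (fun n b => nx (max b (g n))) n
  have hs : ∀ n, s (n + 1) = nx (max (s n) (g n)) := fun n => rfl
  refine ⟨fun n => (s n).1, strictMono_nat_of_lt_succ fun n => ?_, fun n => (s n).2, fun b hb => ?_⟩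
  · have : s n < s (n + 1) := by
      rw [hs]
      exact (le_max_left _ _).trans_lt (hnx _)
    exact this
  · obtain ⟨n, hn⟩ := hg ⟨b, hb⟩
    refine ⟨n + 1, ?_⟩
    have : (⟨b, hb⟩ : {b : Om // b < d}) < s (n + 1) := by
      rw [hs, ← hn]
      exact (le_max_right _ _).trans_lt (hnx _)
    exact this

theorem exists_finLadder (h : Diamond) : ∃ L, FinLadder L := by
  classical
  obtain ⟨A, hA⟩ := h
  obtain ⟨π⟩ : Nonempty (Om × Om ≃ Om) := by
    have h1 : #(Om × Om) = #Om := by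
      rw [Cardinal.mk_prod]
      simp
    exact Cardinal.eq.1 h1
  -- cofinal sequences
  have hs : ∀ d : Om, ∃ s : ℕ → Om, StrictMono s ∧ (((∃ b, b < d) ∧ ∀ b, b < d → ∃ c, b < c ∧ c < d) →
      (∀ n, s n < d) ∧ ∀ b, b < d → ∃ n, b < s n) := by
    intro d
    by_cases hd : (∃ b, b < d) ∧ ∀ b, b < d → ∃ c, b < c ∧ c < d
    · obtain ⟨s, hs1, hs2, hs3⟩ := exists_seq d hd.1 hd.2
      exact ⟨s, hs1, fun _ => ⟨hs2, hs3⟩⟩
    · have hnx : ∀ b : Om, ∃ c, b < c := fun b => by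
        obtain ⟨c, hc⟩ := exists_bound fun _ : ℕ => b
        exact ⟨c, hc 0⟩
      choose nx hnx using hnx
      let s : ℕ → Om := fun n => Nat.rec d (fun _ b => nx b) n
      exact ⟨s, strictMono_nat_of_lt_succ fun n => hnx _, fun h => absurd h hd⟩
  choose s hs1 hs2 using hs
  let G : Om → Om → Set Om := fun d a => {x | x < d ∧ a < x ∧ A d (π (a, x))}
  let good : Om → Prop := fun d => ((∃ b, b < d) ∧ ∀ b, b < d → ∃ c, b < c ∧ c < d) ∧
    ∀ n, (G d (s d n)).Finite
  let L : Om → Om → Prop := fun d x => good d ∧ ∃ n, x ∈ G d (s d n)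
  refine ⟨L, ?_, ?_, ?_⟩
  · rintro d a ⟨-, n, h1, -⟩
    exact h1
  · intro d c hcd
    by_cases hd : good d
    · obtain ⟨n, hn⟩ := (hs2 d hd.1).2 c hcd
      refine ⟨(Finset.range n).biUnion fun i => (hd.2 i).toFinset, ?_⟩
      rintro a ⟨-, i, hi⟩ hac
      refine Finset.mem_biUnion.2 ⟨i, Finset.mem_range.2 ?_, (hd.2 i).mem_toFinset.2 hi⟩
      by_contra hni
      push Not at hni
      have h1 : s d n ≤ s d i := (hs1 d).monotone hni
      have h2 : s d i < a := hi.2.1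
      exact absurd (hn.trans_le h1) (not_lt.2 (h2.trans hac).le)
    · exact ⟨∅, fun a ha => absurd ha.1 hd⟩
  · intro F hF e
    -- the closure function
    have hcb : ∀ b : Om, ∃ c, b < c ∧ (∀ x ∈ F b, x < c) ∧ ∀ a ≤ b, ∀ x ≤ b, π (a, x) < c := by
      intro b
      obtain ⟨c, hc⟩ := bdd (S := {b} ∪ (↑(F b) ∪ π '' ((Iic b : Set Om) ×ˢ (Iic b : Set Om))))
        ((countable_singleton b).union ((F b).countable_toSet.union
          (((countable_Iic' b).prod (countable_Iic' b)).image _)))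
      exact ⟨c, hc b (Or.inl rfl), fun x hx => hc x (Or.inr (Or.inl hx)),
        fun a ha x hx => hc _ (Or.inr (Or.inr ⟨(a, x), ⟨ha, hx⟩, rfl⟩))⟩
    choose h hh1 hh2 hh3 using hcb
    obtain ⟨d, ⟨hed, hcl⟩, hd⟩ := hA (fun z => (π.symm z).2 ∈ F (π.symm z).1)
      (fun d => e < d ∧ ∀ b, b < d → h b < d) (club_closed h e)
    have hlim : (∃ b, b < d) ∧ ∀ b, b < d → ∃ c, b < c ∧ c < d :=
      ⟨⟨e, hed⟩, fun b hb => ⟨h b, hh1 b, hcl b hb⟩⟩
    obtain ⟨hs3, hs4⟩ := hs2 d hlim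
    have hG : ∀ a, a < d → G d a = ↑(F a) := by
      intro a ha
      ext x
      constructor
      · rintro ⟨hx1, hx2, hx3⟩
        have h1 : π (a, x) < d :=
          (hh3 (max a x) a (le_max_left _ _) x (le_max_right _ _)).trans (hcl _ (max_lt ha hx1))
        have h2 := (hd _ h1).2 hx3
        simpa using h2
      · intro hx
        have hxd : x < d := (hh2 a x hx).trans (hcl a ha)
        refine ⟨hxd, hF a x hx, ?_⟩
        have h1 : π (a, x) < d :=
          (hh3 (max a x) a (le_max_left _ _) x (le_max_right _ _)).trans (hcl _ (max_lt ha hxd))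
        exact (hd _ h1).1 (by simpa using hx)
    have hgood : good d := ⟨hlim, fun n => by rw [hG _ (hs3 n)]; exact (F _).finite_toSet⟩
    refine ⟨d, hed, fun c hc => ?_⟩
    obtain ⟨n, hn⟩ := hs4 c hc
    refine ⟨s d n, hn, hs3 n, fun x hx => ⟨hgood, n, ?_⟩⟩
    rw [hG _ (hs3 n)]
    exact hx

end Pool.Agent.R582.Dow
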