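import Mathlib
import Pool.Agent.Helper292.ForceCH

set_option autoImplicit false

/-!
# A Dowker space from a ladder system and minimal walks
-/

namespace Pool.Agent.R582.Dow

open Cardinal Set Topology
open Pool.Agent.Helper292.ForceCH (Om exists_bound)

/-- `A` is a ladder system on `ω₁`: `A δ` is a subset of `δ` which has only finitely many elements
below each `γ < δ`; and it guesses pairs of unbounded sets: for all unbounded sets
`H`, `K ⊆ ω₁` there are arbitrarily large `δ` such that `A δ ∩ H` and `A δ ∩ K` are both cofinal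
in `δ`. -/
def Ladder (A : Om → Om → Prop) : Prop :=
  (∀ d a, A d a → a < d) ∧
  (∀ d c, c < d → ∃ F : Finset Om, ∀ a, A d a → a < c → a ∈ F) ∧
  ∀ H K : Om → Prop, (∀ a, ∃ b, a < b ∧ H b) → (∀ a, ∃ b, a < b ∧ K b) →
    ∀ e, ∃ d, e < d ∧ ∀ c, c < d → (∃ b, c < b ∧ A d b ∧ H b) ∧ ∃ b, c < b ∧ A d b ∧ K b

/-- the minimal walk from the first to the second ordinal arrives in `k` steps -/
inductive R (A : Om → Om → Prop) : Om → Om → ℕ → Prop
  | refl (d : Om) : R A d d 0
  | step {d b a : Om} {k : ℕ} (ha : A d a) (hb : b ≤ a) (hmin : ∀ a', A d a' → b ≤ a' → a ≤ a')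
      (h : R A a b k) : R A d b (k + 1)

variable {A : Om → Om → Prop}

theorem R.le (hA : ∀ d a, A d a → a < d) {d b : Om} {k : ℕ} (h : R A d b k) : b ≤ d := by
  induction h with
  | refl => exact le_rfl
  | step ha hb _ _ ih => exact hb.trans (hA _ _ ha).le

theorem R.self (hA : ∀ d a, A d a → a < d) {d : Om} {k : ℕ} (h : R A d d k) : k = 0 := by
  cases h with
  | refl => rfl
  | step ha hb _ _ => exact absurd (hb.trans_lt (hA _ _ ha)) (lt_irrefl _)

theorem R.det (hA : ∀ d a, A d a → a < d) {d b : Om} {k : ℕ} (h : R A d b k) :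
    ∀ {k' : ℕ}, R A d b k' → k = k' := by
  induction h with
  | refl d =>
    intro k' h'
    exact (R.self hA h').symm
  | @step d b a k ha hb hmin h ih =>
    intro k' h'
    cases h' with
    | refl => exact absurd (hb.trans_lt (hA _ _ ha)) (lt_irrefl _)
    | step ha' hb' hmin' h'' =>
      have e := le_antisymm (hmin _ ha' hb') (hmin' _ ha hb)
      subst e
      rw [ih h'']

/-- locally below `b`, walks from `d` either pass through `b` or never arrive -/
theorem local_walk (hA : ∀ d a, A d a → a < d)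
    (hF : ∀ d c, c < d → ∃ F : Finset Om, ∀ a, A d a → a < c → a ∈ F) (d : Om) :
    ∀ b ≤ d, ∃ F : Finset Om, (∀ x ∈ F, x < b) ∧
      ((∃ l, R A d b l ∧ ∀ b' ≤ b, (∀ x ∈ F, x < b') → ∀ k, R A d b' k ↔
        ∃ k', k = k' + l ∧ R A b b' k') ∨
      ∀ b' ≤ b, (∀ x ∈ F, x < b') → ∀ k, ¬ R A d b' k) := by
  classical
  induction d using WellFoundedLT.induction with
  | ind d ih =>
    intro b hb
    rcases hb.eq_or_lt with rfl | hlt
    · refine ⟨∅, by simp, Or.inl ⟨0, R.refl _, fun b' _ _ k => ?_⟩⟩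
      simp
    · obtain ⟨F₀, hF₀⟩ := hF d b hlt
      by_cases hS : ∃ a, A d a ∧ b ≤ a
      · obtain ⟨a, ⟨ha, hba⟩, hmin⟩ : ∃ a, (A d a ∧ b ≤ a) ∧ ∀ a', (A d a' ∧ b ≤ a') → a ≤ a' := by
          refine ⟨WellFounded.min (wellFounded_lt (α := Om)) {a | A d a ∧ b ≤ a} hS,
            WellFounded.min_mem (wellFounded_lt (α := Om)) {a | A d a ∧ b ≤ a} hS, ?_⟩
          intro a' ha'
          exact not_lt.1 (WellFounded.not_lt_min (wellFounded_lt (α := Om))
            (s := {a | A d a ∧ b ≤ a}) ha')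
        obtain ⟨F₁, hF₁, h1⟩ := ih a (hA _ _ ha) b hba
        have key : ∀ b' ≤ b, (∀ x ∈ F₁ ∪ F₀.filter (· < b), x < b') → ∀ k,
            R A d b' k ↔ ∃ k', k = k' + 1 ∧ R A a b' k' := by
          intro b' hb' hx k
          have hmin' : ∀ a', A d a' → b' ≤ a' → a ≤ a' := by
            intro a' ha' hle
            apply hmin a' ⟨ha', ?_⟩
            by_contra hlt'
            push Not at hlt'
            have := hx a' (Finset.mem_union_right _ (Finset.mem_filter.2
              ⟨hF₀ a' ha' hlt', hlt'⟩))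
            exact absurd this (not_lt.2 hle)
          constructor
          · intro h
            cases h with
            | refl => exact absurd hlt (not_lt.2 hb')
            | step ha'' hb'' hmin'' h'' =>
              have e := le_antisymm (hmin' _ ha'' hb'') (hmin'' _ ha (hb'.trans hba))
              subst e
              exact ⟨_, rfl, h''⟩
          · rintro ⟨k', rfl, h⟩
            exact R.step ha (hb'.trans hba) hmin' h
        refine ⟨F₁ ∪ F₀.filter (· < b), ?_, ?_⟩
        · intro x hx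
          rcases Finset.mem_union.1 hx with hx | hx
          · exact hF₁ x hx
          · exact (Finset.mem_filter.1 hx).2
        · have hsub : ∀ {b'}, (∀ x ∈ F₁ ∪ F₀.filter (· < b), x < b') → ∀ x ∈ F₁, x < b' :=
            fun h x hx => h x (Finset.mem_union_left _ hx)
          rcases h1 with ⟨l, hl, h2⟩ | h2
          · left
            refine ⟨l + 1, ?_, ?_⟩
            · exact R.step ha hba (fun a' ha' hle => hmin a' ⟨ha', hle⟩) hl
            · intro b' hb' hx k
              rw [key b' hb' hx k]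
              constructor
              · rintro ⟨k', rfl, h⟩
                obtain ⟨k'', rfl, h''⟩ := (h2 b' hb' (hsub hx) k').1 h
                exact ⟨k'', by omega, h''⟩
              · rintro ⟨k', rfl, h⟩
                exact ⟨k' + l, by omega, (h2 b' hb' (hsub hx) _).2 ⟨k', rfl, h⟩⟩
          · right
            intro b' hb' hx k h
            obtain ⟨k', rfl, h'⟩ := (key b' hb' hx k).1 h
            exact h2 b' hb' (hsub hx) k' h'
      · refine ⟨F₀.filter (· < b), fun x hx => (Finset.mem_filter.1 hx).2, Or.inr ?_⟩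
        intro b' hb' hx k h
        cases h with
        | refl => exact absurd hlt (not_lt.2 hb')
        | step ha'' hb'' hmin'' h'' =>
          rename_i a' k'
          have hlt' : a' < b := by
            by_contra hcon
            exact hS ⟨a', ha'', not_lt.1 hcon⟩
          have := hx a' (Finset.mem_filter.2 ⟨hF₀ a' ha'' hlt', hlt'⟩)
          exact absurd this (not_lt.2 hb'')

/-- the points of the space -/
def Sp : Type := Om × ℕ

/-- basic neighbourhoods of `(d, n)` -/
def N (A : Om → Om → Prop) (x : Sp) (F : Finset Om) : Set Sp :=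
  {y | (∀ z ∈ F, z < y.1) ∧ ∃ k, R A x.1 y.1 k ∧ x.2 = y.2 + k}

/-- the topology -/
def top (A : Om → Om → Prop) : TopologicalSpace Sp where
  IsOpen U := ∀ x ∈ U, ∃ F : Finset Om, (∀ z ∈ F, z < x.1) ∧ N A x F ⊆ U
  isOpen_univ := fun x _ => ⟨∅, by simp, subset_univ _⟩
  isOpen_inter := by
    classical
    intro U V hU hV x hx
    obtain ⟨F, hF, hF'⟩ := hU x hx.1
    obtain ⟨G, hG, hG'⟩ := hV x hx.2
    refine ⟨F ∪ G, ?_, ?_⟩
    · intro z hz
      rcases Finset.mem_union.1 hz with h | h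
      · exact hF z h
      · exact hG z h
    · intro y hy
      exact ⟨hF' ⟨fun z hz => hy.1 z (Finset.mem_union_left _ hz), hy.2⟩,
        hG' ⟨fun z hz => hy.1 z (Finset.mem_union_right _ hz), hy.2⟩⟩
  isOpen_sUnion := by
    intro S hS x hx
    obtain ⟨U, hU, hxU⟩ := hx
    obtain ⟨F, hF, hF'⟩ := hS U hU x hxU
    exact ⟨F, hF, hF'.trans (subset_sUnion_of_mem hU)⟩

theorem mem_N_self (x : Sp) {F : Finset Om} (hF : ∀ z ∈ F, z < x.1) : x ∈ N A x F :=
  ⟨hF, 0, R.refl _, rfl⟩

theorem isOpen_iff {U : Set Sp} : IsOpen[top A] U ↔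
    ∀ x ∈ U, ∃ F : Finset Om, (∀ z ∈ F, z < x.1) ∧ N A x F ⊆ U := Iff.rfl

section

variable (hA : ∀ d a, A d a → a < d)
  (hF : ∀ d c, c < d → ∃ F : Finset Om, ∀ a, A d a → a < c → a ∈ F)

include hA hF

theorem isOpen_N (x : Sp) (F : Finset Om) : IsOpen[top A] (N A x F) := by
  classical
  rw [isOpen_iff]
  rintro y ⟨hyF, k, hk, hxk⟩
  obtain ⟨G, hG, h | h⟩ := local_walk hA hF x.1 y.1 (hk.le hA)
  · obtain ⟨l, hl, h1⟩ := h
    have hkl : k = l := hk.det hA hl
    subst hkl
    refine ⟨G ∪ F, ?_, ?_⟩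
    · intro z hz
      rcases Finset.mem_union.1 hz with h | h
      · exact hG z h
      · exact hyF z h
    · rintro w ⟨hw, k', hk', hk2⟩
      refine ⟨fun z hz => hw z (Finset.mem_union_right _ hz), k' + k, ?_, by omega⟩
      exact (h1 w.1 (hk'.le hA) (fun z hz => hw z (Finset.mem_union_left _ hz)) _).2 ⟨k', rfl, hk'⟩
  · exact absurd hk (h y.1 le_rfl hG k)

theorem isClosed_N (x : Sp) (F : Finset Om) : IsClosed[top A] (N A x F) := by
  classical
  letI := top A
  rw [← isOpen_compl_iff]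
  change ∀ y ∈ (N A x F)ᶜ, _
  intro y hy
  by_cases h1 : y.1 ≤ x.1
  · by_cases h2 : ∀ z ∈ F, z < y.1
    · obtain ⟨G, hG, h | h⟩ := local_walk hA hF x.1 y.1 h1
      · obtain ⟨l, hl, h3⟩ := h
        refine ⟨G, hG, ?_⟩
        rintro w ⟨hw, k', hk', hk2⟩ ⟨hw', m, hm, hm2⟩
        obtain ⟨k'', hk3, hk4⟩ := (h3 w.1 (hk'.le hA) hw m).1 hm
        have := hk'.det hA hk4
        subst this
        exact hy ⟨h2, l, hl, by omega⟩
      · refine ⟨G, hG, ?_⟩
        rintro w ⟨hw, k', hk', hk2⟩ ⟨hw', m, hm, hm2⟩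
        exact h w.1 (hk'.le hA) hw m hm
    · push Not at h2
      obtain ⟨z, hz, hz'⟩ := h2
      refine ⟨∅, by simp, ?_⟩
      rintro w ⟨-, k', hk', -⟩ ⟨hw', -⟩
      exact absurd (hw' z hz) (not_lt.2 ((hk'.le hA).trans hz'))
  · push Not at h1
    refine ⟨{x.1}, by simpa using h1, ?_⟩
    rintro w ⟨hw, -⟩ ⟨-, m, hm, -⟩
    have := hw x.1 (by simp)
    exact absurd (hm.le hA) (not_le.2 this)

omit hF in
theorem exists_N_notMem {x y : Sp} (hxy : y ≠ x) : ∃ F : Finset Om, (∀ z ∈ F, z < x.1) ∧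
    y ∉ N A x F := by
  rcases lt_trichotomy y.1 x.1 with h | h | h
  · refine ⟨{y.1}, by simpa using h, ?_⟩
    rintro ⟨h1, -⟩
    exact absurd (h1 y.1 (by simp)) (lt_irrefl _)
  · refine ⟨∅, by simp, ?_⟩
    rintro ⟨-, k, hk, hk2⟩
    rw [h] at hk
    have := hk.self hA
    subst this
    exact hxy (Prod.ext h (by omega))
  · refine ⟨∅, by simp, ?_⟩
    rintro ⟨-, k, hk, -⟩
    exact absurd (hk.le hA) (not_le.2 h)

theorem t2 : @T2Space Sp (top A) := by
  letI := top A
  refine ⟨fun x y hxy => ?_⟩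
  obtain ⟨F, hF', hy⟩ := exists_N_notMem hA (x := x) (y := y) hxy.symm
  exact ⟨N A x F, (N A x F)ᶜ, isOpen_N hA hF x F, (isClosed_N hA hF x F).isOpen_compl,
    mem_N_self x hF', hy, disjoint_compl_right⟩

theorem exists_clopen {C : Set Sp} (hC : IsClosed[top A] C) {x : Sp} (hx : x ∉ C) :
    ∃ V : Set Sp, IsOpen[top A] V ∧ IsClosed[top A] V ∧ x ∈ V ∧ Disjoint V C := by
  have h1 : IsOpen[top A] Cᶜ := (@isOpen_compl_iff Sp C (top A)).2 hC
  obtain ⟨F, hF', hsub⟩ := h1 x hx
  exact ⟨N A x F, isOpen_N hA hF x F, isClosed_N hA hF x F, mem_N_self x hF',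
    disjoint_left.2 fun y hy hyC => hsub hy hyC⟩

omit hF in
theorem N_countable (x : Sp) (F : Finset Om) : (N A x F).Countable := by
  have h1 : N A x F ⊆ {y : Sp | y.1 ≤ x.1} := by
    rintro y ⟨-, k, hk, -⟩
    exact hk.le hA
  refine Countable.mono h1 ?_
  have h2 : (Iic x.1 : Set Om).Countable := by
    have : Iic x.1 = insert x.1 (Iio x.1) := by
      ext z
      simp [le_iff_eq_or_lt]
    rw [this]
    exact Set.Countable.insert _ (Set.countable_coe_iff.1
      (Pool.Agent.Helper292.ForceCH.countable_Iio _))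
  have h3 : {y : Sp | y.1 ≤ x.1} = (Iic x.1 : Set Om) ×ˢ (univ : Set ℕ) := by
    ext y
    exact ⟨fun h => ⟨h, mem_univ _⟩, fun h => h.1⟩
  rw [h3]
  exact h2.prod (countable_univ)

theorem firstCountable : @FirstCountableTopology Sp (top A) := by
  classical
  letI := top A
  refine ⟨fun x => ?_⟩
  have hb : (𝓝 x).HasBasis (fun F : Finset Om => ∀ z ∈ F, z < x.1) (fun F => N A x F) := by
    refine ⟨fun t => ?_⟩
    rw [mem_nhds_iff]
    constructor
    · rintro ⟨U, hUt, hU, hxU⟩
      obtain ⟨F, hF', hsub⟩ := hU x hxU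
      exact ⟨F, hF', hsub.trans hUt⟩
    · rintro ⟨F, hF', hsub⟩
      exact ⟨N A x F, hsub, isOpen_N hA hF x F, mem_N_self x hF'⟩
  refine Filter.HasCountableBasis.isCountablyGenerated (ι := Finset Om)
    (p := fun F => ∀ z ∈ F, z < x.1) (s := fun F => N A x F) ⟨hb, ?_⟩
  have h1 : (Iio x.1 : Set Om).Countable := Set.countable_coe_iff.1
    (Pool.Agent.Helper292.ForceCH.countable_Iio _)
  have h2 := Set.countable_setOf_finite_subset h1
  have h3 : {F : Finset Om | ∀ z ∈ F, z < x.1} ⊆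
      (fun F : Finset Om => (F : Set Om)) ⁻¹' {t | t.Finite ∧ t ⊆ Iio x.1} := by
    intro F hF'
    exact ⟨F.finite_toSet, fun z hz => hF' z hz⟩
  exact (h2.preimage_of_injOn (Finset.coe_injective.injOn)).mono h3

end

end Pool.Agent.R582.Dow
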