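import Mathlib
import Pool.Agent.R582.Dow.Walk

set_option autoImplicit false

/-!
# The space is normal and not countably paracompact
-/

namespace Pool.Agent.R582.Dow

open Cardinal Set Topology
open Pool.Agent.Helper292.ForceCH (Om exists_bound)

/-- Countable paracompactness: every countable open cover has a locally finite open refinement
(again a cover). -/
def CountablyParacompact (X : Type) [TopologicalSpace X] : Prop :=
  ∀ U : ℕ → Set X, (∀ n, IsOpen (U n)) → (⋃ n, U n) = Set.univ →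
    ∃ (ι : Type) (V : ι → Set X), (∀ i, IsOpen (V i)) ∧ (⋃ i, V i) = Set.univ ∧
      LocallyFinite V ∧ ∀ i, ∃ n, V i ⊆ U n

variable {A : Om → Om → Prop}

/-- an unbounded closed set has unbounded sections on all high levels -/
theorem exists_level (hA : Ladder A) {H : Set Sp} (hH : IsClosed[top A] H)
    (hu : ∀ a, ∃ x ∈ H, a < x.1) : ∃ j : ℕ, ∀ l, j ≤ l → ∀ a, ∃ b, a < b ∧ ((b, l) : Sp) ∈ H := by
  have h0 : ∃ j : ℕ, ∀ a, ∃ b, a < b ∧ ((b, j) : Sp) ∈ H := by
    by_contra hcon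
    push Not at hcon
    choose f hf using hcon
    obtain ⟨a, ha⟩ := exists_bound f
    obtain ⟨x, hx, hax⟩ := hu a
    exact hf x.2 x.1 ((ha _).trans hax) hx
  obtain ⟨j, hj⟩ := h0
  refine ⟨j, fun l hl => ?_⟩
  induction l, hl using Nat.le_induction with
  | base => exact hj
  | succ l _ ih =>
    intro e
    obtain ⟨d, hed, hd⟩ := hA.2.2 (fun b => ((b, l) : Sp) ∈ H) (fun b => ((b, l) : Sp) ∈ H)
      ih ih e
    refine ⟨d, hed, ?_⟩
    by_contra hcon
    have h1 : IsOpen[top A] Hᶜ := (@isOpen_compl_iff Sp H (top A)).2 hH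
    obtain ⟨F, hF, hsub⟩ := h1 (d, l + 1) hcon
    have h2 : ∃ c, c < d ∧ ∀ z ∈ F, z ≤ c := by
      rcases F.eq_empty_or_nonempty with rfl | hne
      · exact ⟨e, hed, by simp⟩
      · exact ⟨F.max' hne, hF _ (F.max'_mem hne), fun z hz => F.le_max' z hz⟩
    obtain ⟨c, hcd, hc⟩ := h2
    obtain ⟨⟨b, hcb, hb, hbH⟩, -⟩ := hd c hcd
    exact hsub (show ((b, l) : Sp) ∈ N A (d, l + 1) F from
      ⟨fun z hz => (hc z hz).trans_lt hcb, 1,
        R.step hb le_rfl (fun _ _ h => h) (R.refl _), rfl⟩) hbH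

/-- two unbounded closed sets meet -/
theorem inter_nonempty (hA : Ladder A) {H K : Set Sp} (hH : IsClosed[top A] H)
    (hK : IsClosed[top A] K) (hHu : ∀ a, ∃ x ∈ H, a < x.1) (hKu : ∀ a, ∃ x ∈ K, a < x.1) :
    (H ∩ K).Nonempty := by
  obtain ⟨j, hj⟩ := exists_level hA hH hHu
  obtain ⟨j', hj'⟩ := exists_level hA hK hKu
  set l := max j j' with hl
  obtain ⟨e⟩ : Nonempty Om := inferInstance
  obtain ⟨d, hed, hd⟩ := hA.2.2 (fun b => ((b, l) : Sp) ∈ H) (fun b => ((b, l) : Sp) ∈ K)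
    (hj l (le_max_left _ _)) (hj' l (le_max_right _ _)) e
  have key : ∀ L : Set Sp, IsClosed[top A] L →
      (∀ c, c < d → ∃ b, c < b ∧ A d b ∧ ((b, l) : Sp) ∈ L) → ((d, l + 1) : Sp) ∈ L := by
    intro L hL h
    by_contra hcon
    have h1 : IsOpen[top A] Lᶜ := (@isOpen_compl_iff Sp L (top A)).2 hL
    obtain ⟨F, hF, hsub⟩ := h1 (d, l + 1) hcon
    have h2 : ∃ c, c < d ∧ ∀ z ∈ F, z ≤ c := by
      rcases F.eq_empty_or_nonempty with rfl | hne
      · exact ⟨e, hed, by simp⟩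
      · exact ⟨F.max' hne, hF _ (F.max'_mem hne), fun z hz => F.le_max' z hz⟩
    obtain ⟨c, hcd, hc⟩ := h2
    obtain ⟨b, hcb, hb, hbH⟩ := h c hcd
    exact hsub (show ((b, l) : Sp) ∈ N A (d, l + 1) F from
      ⟨fun z hz => (hc z hz).trans_lt hcb, 1,
        R.step hb le_rfl (fun _ _ h => h) (R.refl _), rfl⟩) hbH
  exact ⟨(d, l + 1), key H hH fun c hc => (hd c hc).1, key K hK fun c hc => (hd c hc).2⟩

theorem clopen_le (hA : Ladder A) (e : Om) :
    IsOpen[top A] {x : Sp | x.1 ≤ e} ∧ IsClosed[top A] {x : Sp | x.1 ≤ e} := by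
  constructor
  · intro x hx
    refine ⟨∅, by simp, ?_⟩
    rintro y ⟨-, k, hk, -⟩
    exact (hk.le hA.1).trans hx
  · rw [← @isOpen_compl_iff Sp _ (top A)]
    intro x hx
    refine ⟨{e}, by simpa using hx, ?_⟩
    rintro y ⟨hy, -⟩
    have := hy e (by simp)
    exact not_le.2 this

theorem countable_le (e : Om) : {x : Sp | x.1 ≤ e}.Countable := by
  have h2 : (Iic e : Set Om).Countable := by
    have : Iic e = insert e (Iio e) := by
      ext z
      simp [le_iff_eq_or_lt]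
    rw [this]
    exact Set.Countable.insert _ (Set.countable_coe_iff.1
      (Pool.Agent.Helper292.ForceCH.countable_Iio _))
  have h3 : {y : Sp | y.1 ≤ e} = (Iic e : Set Om) ×ˢ (univ : Set ℕ) := by
    ext y
    exact ⟨fun h => ⟨h, mem_univ _⟩, fun h => h.1⟩
  rw [h3]
  exact h2.prod (countable_univ)

/-- a countable set `s` has a separating cover with respect to a closed set `t` disjoint from it -/
theorem cover_aux (hA : Ladder A) {s t : Set Sp} (hs : s.Countable) (ht : IsClosed[top A] t)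
    (hd : Disjoint s t) (W : Set Sp) (hW : IsOpen[top A] W) (hW' : IsClosed[top A] W)
    (hWt : Disjoint W t) : @HasSeparatingCover Sp (top A) (s ∪ W) t := by
  letI := top A
  rcases s.eq_empty_or_nonempty with rfl | hne
  · refine ⟨fun _ => W, fun x hx => mem_iUnion.2 ⟨0, by simpa using hx⟩, fun n => ⟨hW, ?_⟩⟩
    rw [hW'.closure_eq]
    exact hWt
  · obtain ⟨f, hf⟩ := hs.exists_eq_range hne
    have h1 : ∀ n, ∃ V : Set Sp, IsOpen V ∧ IsClosed V ∧ f n ∈ V ∧ Disjoint V t := by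
      intro n
      refine exists_clopen hA.1 hA.2.1 ht ?_
      exact fun h => (disjoint_left.1 hd) (by rw [hf]; exact mem_range_self n) h
    choose V hV1 hV2 hV3 hV4 using h1
    refine ⟨fun n => V n ∪ W, ?_, fun n => ⟨(hV1 n).union hW, ?_⟩⟩
    · rintro x (hx | hx)
      · rw [hf] at hx
        obtain ⟨n, rfl⟩ := hx
        exact mem_iUnion.2 ⟨n, Or.inl (hV3 n)⟩
      · exact mem_iUnion.2 ⟨0, Or.inr hx⟩
    · rw [((hV2 n).union hW').closure_eq]
      exact (hV4 n).union_left hWt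

theorem separated_aux (hA : Ladder A) {H K : Set Sp} (hH : IsClosed[top A] H)
    (hK : IsClosed[top A] K) (hd : Disjoint H K) (e : Om) (he : ∀ x ∈ H, x.1 ≤ e) :
    @SeparatedNhds Sp (top A) H K := by
  letI := top A
  rw [← hasSeparatingCovers_iff_separatedNhds]
  constructor
  · have h1 := cover_aux hA ((countable_le e).mono he) hK hd ∅ isOpen_empty isClosed_empty
      (empty_disjoint _)
    rwa [union_empty] at h1
  · have h1 := cover_aux hA (s := K ∩ {x : Sp | x.1 ≤ e}) (t := H)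
      ((countable_le e).mono inter_subset_right) hH
      (hd.symm.mono_left inter_subset_left) {x : Sp | x.1 ≤ e}ᶜ
      (clopen_le hA e).2.isOpen_compl (isClosed_compl_iff.2 (clopen_le hA e).1)
      (disjoint_left.2 fun x hx hxH => hx (he x hxH))
    obtain ⟨u, hu, hu'⟩ := h1
    refine ⟨u, fun x hx => hu ?_, hu'⟩
    by_cases hxe : x.1 ≤ e
    · exact Or.inl ⟨hx, hxe⟩
    · exact Or.inr hxe

theorem normal (hA : Ladder A) : @NormalSpace Sp (top A) := by
  letI := top A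
  refine ⟨fun H K hH hK hd => ?_⟩
  by_cases h1 : ∀ a, ∃ x ∈ H, a < x.1
  · by_cases h2 : ∀ a, ∃ x ∈ K, a < x.1
    · obtain ⟨x, hx1, hx2⟩ := inter_nonempty hA hH hK h1 h2
      exact absurd hx2 (disjoint_left.1 hd hx1)
    · push Not at h2
      obtain ⟨e, he⟩ := h2
      exact (separated_aux hA hK hH hd.symm e he).symm
  · push Not at h1
    obtain ⟨e, he⟩ := h1
    exact separated_aux hA hH hK hd e he

theorem not_countablyParacompact (hA : Ladder A) : ¬ @CountablyParacompact Sp (top A) := by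
  letI := top A
  intro hcp
  have hUo : ∀ n : ℕ, IsOpen {x : Sp | x.2 < n} := by
    intro n x hx
    refine ⟨∅, by simp, ?_⟩
    rintro y ⟨-, k, -, hk⟩
    have h1 : x.2 < n := hx
    change y.2 < n
    omega
  obtain ⟨ι, V, hV, hVu, hVf, hVr⟩ := hcp (fun n => {x : Sp | x.2 < n}) hUo (by
    ext x
    simp only [mem_iUnion, mem_univ, iff_true]
    exact ⟨x.2 + 1, Nat.lt_succ_self _⟩)
  -- the complement of `O n` is bounded
  have h1 : ∀ n : ℕ, ∃ e : Om, ∀ x : Sp, e < x.1 → ∃ i, x ∈ V i ∧ ¬ V i ⊆ {x : Sp | x.2 < n} := by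
    intro n
    by_contra hcon
    push Not at hcon
    set O : Set Sp := ⋃ i : {i // ¬ V i ⊆ {x : Sp | x.2 < n}}, V i.1 with hO
    have hOo : IsOpen O := isOpen_iUnion fun i => hV i.1
    have hu : ∀ a, ∃ x ∈ Oᶜ, a < x.1 := by
      intro a
      obtain ⟨x, hax, hx⟩ := hcon a
      refine ⟨x, fun hxO => ?_, hax⟩
      obtain ⟨⟨i, hi⟩, hxi⟩ := mem_iUnion.1 hxO
      exact hi (hx i hxi)
    obtain ⟨j, hj⟩ := exists_level hA hOo.isClosed_compl hu
    obtain ⟨e⟩ : Nonempty Om := inferInstance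
    obtain ⟨b, -, hb⟩ := hj (max j n) (le_max_left _ _) e
    have h2 : ((b, max j n) : Sp) ∈ ⋃ i, V i := by rw [hVu]; exact mem_univ _
    obtain ⟨i, hi⟩ := mem_iUnion.1 h2
    apply hb
    refine mem_iUnion.2 ⟨⟨i, fun hsub => ?_⟩, hi⟩
    have h3 : max j n < n := hsub hi
    exact absurd h3 (not_lt.2 (le_max_right _ _))
  choose e he using h1
  obtain ⟨d, hd⟩ := exists_bound e
  have h2 : ∀ n : ℕ, ∃ i, ((d, 0) : Sp) ∈ V i ∧ ¬ V i ⊆ {x : Sp | x.2 < n} := fun n =>
    he n (d, 0) (hd n)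
  have h3 : {i | ((d, 0) : Sp) ∈ V i}.Finite := hVf.point_finite _
  choose m hm using hVr
  obtain ⟨M, hM⟩ := (h3.image m).bddAbove
  obtain ⟨i, hi, hi'⟩ := h2 M
  apply hi'
  refine (hm i).trans fun x hx => ?_
  have h4 : m i ≤ M := hM ⟨i, hi, rfl⟩
  exact lt_of_lt_of_le hx h4

/-- A ladder system as above gives a first countable, locally countable Dowker space. -/
theorem exists_dowker (hA : Ladder A) : ∃ (X : Type) (_ : TopologicalSpace X), #X = ℵ₁ ∧
    T2Space X ∧ NormalSpace X ∧ ¬ CountablyParacompact X ∧ FirstCountableTopology X ∧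
    ∀ x : X, ∃ U : Set X, IsOpen U ∧ U.Countable ∧ x ∈ U := by
  refine ⟨Sp, top A, ?_, t2 hA.1 hA.2.1, normal hA, not_countablyParacompact hA,
    firstCountable hA.1 hA.2.1, fun x => ⟨N A x ∅, isOpen_N hA.1 hA.2.1 x ∅,
      N_countable hA.1 x ∅, mem_N_self x (by simp)⟩⟩
  change #(Om × ℕ) = ℵ₁
  rw [Cardinal.mk_prod]
  simp

end Pool.Agent.R582.Dow
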