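import Mathlib
import Pool.Agent.Helper292.ForceCH

set_option autoImplicit false

/-!
# No Lusin sets if all sets of `ℵ₁` functions are evaded by a bounded function
-/

namespace Pool.Agent.R582.Dow

open Cardinal Set Topology
open Pool.Agent.Helper292.ForceCH (Om)

/-- For every family, indexed by `ω₁`, of functions `x a : ℕ → ℕ` there is a function `r` with
`r n < 2 ^ n` such that for all `a` the functions `x a` and `r` are eventually different. -/
def Evade : Prop :=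
  ∀ x : Om → ℕ → ℕ, ∃ r : ℕ → ℕ, (∀ n, r n < 2 ^ n) ∧ ∀ a, ∃ m, ∀ n, m ≤ n → x a n ≠ r n

/-- A Lusin set: an uncountable set of reals which meets every meagre set in a countable set. -/
def LusinSet (L : Set ℝ) : Prop :=
  ¬ L.Countable ∧ ∀ M : Set ℝ, IsMeagre M → (L ∩ M).Countable

/-- a block of binary digits -/
noncomputable def dig (y : ℝ) (n : ℕ) : ℕ := (⌊(2 : ℝ) ^ (2 * n) * y⌋ % 2 ^ n).toNat

theorem nwd (r : ℕ → ℕ) (hr : ∀ n, r n < 2 ^ n) (m : ℕ) :
    IsNowhereDense {y : ℝ | ∀ n, m ≤ n → dig y n ≠ r n} := by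
  unfold IsNowhereDense
  by_contra hne
  obtain ⟨z, hz⟩ := Set.nonempty_iff_ne_empty.2 hne
  obtain ⟨ε, hε, hball⟩ := Metric.isOpen_iff.1 isOpen_interior z hz
  obtain ⟨k, hk⟩ := exists_pow_lt_of_lt_one (half_pos hε) (by norm_num : (1 / 2 : ℝ) < 1)
  set n := max m k with hn
  have h2n : (1 / 2 : ℝ) ^ n < ε / 2 :=
    (pow_le_pow_of_le_one (by norm_num) (by norm_num) (le_max_right m k)).trans_lt hk
  have hpos : (0 : ℝ) < 2 ^ n := by positivity
  have hinv : (2 : ℝ) ^ n * (1 / 2) ^ n = 1 := by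
    rw [← mul_pow]; norm_num
  set j : ℤ := ⌊(2 : ℝ) ^ n * z⌋ + 1 with hj
  set c : ℤ := j * 2 ^ n + r n with hc
  have hsq : (2 : ℝ) ^ (2 * n) = 2 ^ n * 2 ^ n := by rw [two_mul, pow_add]
  have hrn : ((r n : ℕ) : ℝ) + 1 ≤ 2 ^ n := by
    have := hr n
    exact_mod_cast this
  have hr0 : (0 : ℝ) ≤ (r n : ℝ) := Nat.cast_nonneg _
  -- the interval
  set I : Set ℝ := {y : ℝ | (c : ℝ) < 2 ^ (2 * n) * y ∧ (2 : ℝ) ^ (2 * n) * y < c + 1} with hI
  have hIo : IsOpen I := by
    have h1 : Continuous fun y : ℝ => (2 : ℝ) ^ (2 * n) * y := continuous_const.mul continuous_id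
    exact (isOpen_lt continuous_const h1).inter (isOpen_lt h1 continuous_const)
  have hIdig : ∀ y ∈ I, dig y n = r n := by
    rintro y ⟨h1, h2⟩
    have hfl : ⌊(2 : ℝ) ^ (2 * n) * y⌋ = c := by
      rw [Int.floor_eq_iff]
      exact ⟨h1.le, h2⟩
    have hmod : c % 2 ^ n = (r n : ℤ) := by
      rw [hc, add_comm, Int.add_mul_emod_self_right]
      apply Int.emod_eq_of_lt (by positivity)
      exact_mod_cast hr n
    unfold dig
    rw [hfl, hmod]
    simp
  have hIball : I ⊆ Metric.ball z ε := by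
    rintro y ⟨h1, h2⟩
    have hcj : (c : ℝ) = j * 2 ^ n + r n := by rw [hc]; push_cast; ring
    rw [hcj] at h1 h2
    rw [hsq] at h1 h2
    -- j < 2 ^ n y < j + 1
    have h3 : (j : ℝ) < 2 ^ n * y := by
      by_contra hcon
      push Not at hcon
      have : (2 : ℝ) ^ n * 2 ^ n * y ≤ j * 2 ^ n := by
        calc (2 : ℝ) ^ n * 2 ^ n * y = 2 ^ n * (2 ^ n * y) := by ring
          _ ≤ 2 ^ n * j := by gcongr
          _ = j * 2 ^ n := by ring
      linarith
    have h4 : (2 : ℝ) ^ n * y < j + 1 := by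
      by_contra hcon
      push Not at hcon
      have : (j + 1 : ℝ) * 2 ^ n ≤ 2 ^ n * 2 ^ n * y := by
        calc (j + 1 : ℝ) * 2 ^ n = 2 ^ n * (j + 1) := by ring
          _ ≤ 2 ^ n * (2 ^ n * y) := by gcongr
          _ = 2 ^ n * 2 ^ n * y := by ring
      have h5 : (j + 1 : ℝ) * 2 ^ n = j * 2 ^ n + 2 ^ n := by ring
      linarith
    have h5 : (j : ℝ) ≤ 2 ^ n * z + 1 := by
      rw [hj]; push_cast
      linarith [Int.floor_le ((2 : ℝ) ^ n * z)]
    have h6 : (2 : ℝ) ^ n * z < j := by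
      rw [hj]; push_cast
      exact Int.lt_floor_add_one _
    have h7 : 0 < 2 ^ n * (y - z) := by
      have : (2 : ℝ) ^ n * (y - z) = 2 ^ n * y - 2 ^ n * z := by ring
      linarith
    have h8 : 2 ^ n * (y - z) < 2 := by
      have : (2 : ℝ) ^ n * (y - z) = 2 ^ n * y - 2 ^ n * z := by ring
      linarith
    have h9 : 0 < y - z := by
      by_contra hcon
      push Not at hcon
      have : (2 : ℝ) ^ n * (y - z) ≤ 0 := mul_nonpos_of_nonneg_of_nonpos hpos.le hcon
      linarith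
    have h10 : y - z < ε := by
      have e1 : y - z = (1 / 2 : ℝ) ^ n * (2 ^ n * (y - z)) := by
        rw [← mul_assoc, mul_comm ((1 / 2 : ℝ) ^ n), hinv, one_mul]
      rw [e1]
      calc (1 / 2 : ℝ) ^ n * (2 ^ n * (y - z)) < (1 / 2 : ℝ) ^ n * 2 := by gcongr
        _ < ε / 2 * 2 := by gcongr
        _ = ε := by ring
    rw [Metric.mem_ball, Real.dist_eq, abs_of_pos h9]
    exact h10
  have hIne : I.Nonempty := by
    refine ⟨(c + 1 / 2) / 2 ^ (2 * n), ?_, ?_⟩
    · rw [mul_div_cancel₀ _ (by positivity)]; linarith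
    · rw [mul_div_cancel₀ _ (by positivity)]; linarith
  obtain ⟨y, hy⟩ := hIne
  have hycl : y ∈ closure {y : ℝ | ∀ n, m ≤ n → dig y n ≠ r n} := interior_subset (hball (hIball hy))
  obtain ⟨w, hwI, hw⟩ := mem_closure_iff.1 hycl I hIo hy
  exact hw n (le_max_left _ _) (hIdig w hwI)

theorem no_lusin (h : Evade) : ¬ ∃ L : Set ℝ, LusinSet L := by
  rintro ⟨L, hL, hLM⟩
  have h1 : #Om ≤ #L := by
    have h2 : ¬ (#L < ℵ₁) := fun h2 => hL ((Cardinal.countable_iff_lt_aleph_one _).2 h2)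
    simpa using not_lt.1 h2
  obtain ⟨f⟩ := h1
  obtain ⟨r, hr, hx⟩ := h fun a => dig (f a : ℝ)
  set M : Set ℝ := ⋃ m : ℕ, {y : ℝ | ∀ n, m ≤ n → dig y n ≠ r n} with hM
  have hMm : IsMeagre M := isMeagre_iUnion fun m => (nwd r hr m).isMeagre
  have h2 := hLM M hMm
  have h3 : range (fun a : Om => (f a : ℝ)) ⊆ L ∩ M := by
    rintro _ ⟨a, rfl⟩
    obtain ⟨m, hm⟩ := hx a
    exact ⟨(f a).2, mem_iUnion.2 ⟨m, hm⟩⟩
  have h4 := h2.mono h3
  have h5 : Function.Injective fun a : Om => (f a : ℝ) := fun a b hab => f.injective (Subtype.ext hab)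
  have h6 : (Set.univ : Set Om).Countable := by
    have := h4.preimage_of_injOn h5.injOn
    rwa [preimage_range] at this
  rw [Set.countable_univ_iff, ← mk_le_aleph0_iff] at h6
  have h7 : #Om = ℵ₁ := by simp
  rw [h7] at h6
  exact absurd h6 (not_le.2 aleph0_lt_aleph_one)

end Pool.Agent.R582.Dow
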