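import Mathlib
import Pool.Agent.R582.Rand.Prod
import Pool.Agent.R582.Rand.Reg
import Pool.Agent.R582.Dow.Diamond
import Pool.Agent.R582.Dow.Dowker
import Pool.Agent.R582.Dow.Lusin

set_option autoImplicit false

/-!
# Random reals preserve the ladder system and kill all Lusin sets
-/

namespace Pool.Agent.R582.Dow

open Cardinal Set MeasureTheory Filter
open scoped ENNReal Topology
open Pool.Agent.Helper292.ForceCH (Om countable_Iio)
open Pool.Agent.Helper292.SP (fnot fand fall fimp fiff fex fground meets IsFun mem_fex mem_fimp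
  not_fex down_meets meets_cst meets_of_mem IsFun_tot IsFun_fun)
open Pool.Agent.H631R2 (CCC NoOnto meets_of_dense mem_fiff mem_fiff_meets)
open Pool.Agent.R582.Rand

section

variable {P : Type} [Preorder P]

/-- The translation of `Ladder A` into the forcing language: `A`, `H`, `K` are names. -/
def LadderN (A : Om → Om → Set P) : Set P :=
  fand (fall fun d : Om => fall fun a : Om => fimp (meets (A d a)) (fground (a < d)))
    (fand (fall fun d : Om => fall fun c : Om => fimp (fground (c < d))
        (fex fun F : Finset Om => fall fun a : Om =>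
          fimp (meets (A d a)) (fimp (fground (a < c)) (fground (a ∈ F)))))
      (fall fun H : Om → Set P => fall fun K : Om → Set P =>
        fimp (fall fun a : Om => fex fun b : Om => fand (fground (a < b)) (meets (H b)))
          (fimp (fall fun a : Om => fex fun b : Om => fand (fground (a < b)) (meets (K b)))
            (fall fun e : Om => fex fun d : Om => fand (fground (e < d))
              (fall fun c : Om => fimp (fground (c < d))
                (fand (fex fun b : Om => fand (fground (c < b)) (fand (meets (A d b)) (meets (H b))))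
                  (fex fun b : Om =>
                    fand (fground (c < b)) (fand (meets (A d b)) (meets (K b))))))))))

/-- The translation of `Evade` into the forcing language: the functions `x a` and `r` are named
functions from `ℕ` to `ℕ`. -/
def EvadeN (P : Type) [Preorder P] : Set P :=
  fall fun x : Om → ℕ → ℕ → Set P => fimp (fall fun a : Om => IsFun (x a))
    (fex fun r : ℕ → ℕ → Set P => fand (IsFun r)
      (fand (fall fun n : ℕ => fall fun k : ℕ => fimp (meets (r n k)) (fground (k < 2 ^ n)))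
        (fall fun a : Om => fex fun m : ℕ => fall fun n : ℕ => fimp (fground (m ≤ n))
          (fall fun k : ℕ => fnot (fand (meets (x a n k)) (meets (r n k)))))))

/-- There is a ladder system which guesses pairs of unbounded sets, and every `ω₁`-sequence of
functions is evaded by a bounded function. -/
def Hyp : Prop := (∃ A : Om → Om → Prop, Ladder A) ∧ Evade

/-- The translation of `Hyp` into the forcing language. -/
def HypN (P : Type) [Preorder P] : Set P :=
  fand (fex fun A : Om → Om → Set P => LadderN A) (EvadeN P)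

end

section

variable {Ω : Type} [MeasurableSpace Ω] {μ : Measure Ω} [IsFiniteMeasure μ]

theorem fin_approx {I : Type} (c : I → Prop) (N : I → Set (MAlg μ)) {p : MAlg μ}
    (h : p ∈ fex fun i => fand (fground (c i)) (meets (N i))) {ε : ℝ≥0∞} (hε : ε ≠ 0) :
    ∃ F : Finset I, (∀ i ∈ F, c i) ∧ μ (p.s \ ⋃ i ∈ F, val (N i)) < ε := by
  classical
  obtain ⟨A, hA, hA', hval⟩ := exists_val_aux {r : MAlg μ | ∃ i, c i ∧ r ∈ meets (N i)}
  have hp : μ (p.s \ ⋃ n, A n) = 0 := by
    rw [← hval]
    intro q hq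
    obtain ⟨r, hr, i, hi, hi'⟩ := mem_fex.1 h q hq
    exact ⟨r, hr, r, ⟨i, hi, hi'⟩, le_rfl⟩
  have h1 : ∀ n, ∃ F : Finset I, (∀ i ∈ F, c i) ∧ μ (A n \ ⋃ i ∈ F, val (N i)) = 0 := by
    intro n
    rcases hA' n with h0 | ⟨s, ⟨i, hi, hi'⟩, hs⟩
    · exact ⟨∅, by simp, by rw [h0]; simp⟩
    · refine ⟨{i}, by simpa using hi, ?_⟩
      rw [mem_meets] at hi'
      have := null_diff_trans hs hi'
      simpa using this
  choose F hF hF' using h1
  have htend : Tendsto (fun m : ℕ => μ (p.s \ ⋃ n ∈ Finset.range m, A n)) atTop (𝓝 0) := by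
    have h2 := tendsto_measure_iInter_atTop (μ := μ) (s := fun m : ℕ =>
      p.s \ ⋃ n ∈ Finset.range m, A n)
      (fun m => (p.meas.diff (Finset.measurableSet_biUnion _ fun n _ => hA n)).nullMeasurableSet)
      (fun m m' hmm x hx => ⟨hx.1, fun hx' => hx.2 (by
        simp only [mem_iUnion, Finset.mem_range] at hx' ⊢
        obtain ⟨n, hn, h⟩ := hx'
        exact ⟨n, hn.trans_le hmm, h⟩)⟩) ⟨0, measure_ne_top _ _⟩
    have h3 : (⋂ m : ℕ, p.s \ ⋃ n ∈ Finset.range m, A n) = p.s \ ⋃ n, A n := by
      ext x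
      simp only [mem_iInter, mem_diff, mem_iUnion, Finset.mem_range, not_exists]
      constructor
      · intro h
        exact ⟨(h 0).1, fun n hn => (h (n + 1)).2 n (Nat.lt_succ_self n) hn⟩
      · rintro ⟨h1, h2⟩ m
        exact ⟨h1, fun n _ hn => h2 n hn⟩
    rw [h3, hp] at h2
    exact h2
  obtain ⟨m, hm⟩ := (htend.eventually_lt_const (pos_iff_ne_zero.2 hε)).exists
  refine ⟨(Finset.range m).biUnion F, ?_, ?_⟩
  · intro i hi
    obtain ⟨n, -, hn⟩ := Finset.mem_biUnion.1 hi
    exact hF n i hn
  · refine lt_of_le_of_lt ?_ hm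
    have hsub : p.s \ ⋃ i ∈ (Finset.range m).biUnion F, val (N i) ⊆
        (p.s \ ⋃ n ∈ Finset.range m, A n) ∪ ⋃ n, (A n \ ⋃ i ∈ F n, val (N i)) := by
      rintro x ⟨hx, hx'⟩
      by_cases hxA : x ∈ ⋃ n ∈ Finset.range m, A n
      · right
        simp only [mem_iUnion, Finset.mem_range] at hxA
        obtain ⟨n, hn, hxn⟩ := hxA
        refine mem_iUnion.2 ⟨n, hxn, fun h => hx' ?_⟩
        simp only [mem_iUnion] at h ⊢
        obtain ⟨i, hi, hxi⟩ := h
        exact ⟨i, Finset.mem_biUnion.2 ⟨n, Finset.mem_range.2 hn, hi⟩, hxi⟩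
      · exact Or.inl ⟨hx, hxA⟩
    calc μ (p.s \ ⋃ i ∈ (Finset.range m).biUnion F, val (N i))
        ≤ μ ((p.s \ ⋃ n ∈ Finset.range m, A n) ∪ ⋃ n, (A n \ ⋃ i ∈ F n, val (N i))) :=
          measure_mono hsub
      _ ≤ μ (p.s \ ⋃ n ∈ Finset.range m, A n) + μ (⋃ n, (A n \ ⋃ i ∈ F n, val (N i))) :=
          measure_union_le _ _
      _ = μ (p.s \ ⋃ n ∈ Finset.range m, A n) := by
          rw [measure_iUnion_null hF', add_zero]

/-- the guessing property of the ladder system, for one name -/
theorem guess_aux {L : Om → Om → Prop} {d : Om}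
    (H : Om → Set (MAlg μ)) (q : Set Ω) (ε : ℝ≥0∞)
    (hd : ∀ c, c < d → ∃ F : Finset Om, (∀ b ∈ F, c < b ∧ L d b) ∧
      μ (q \ ⋃ b ∈ F, val (H b)) ≤ ε) :
    μ (q \ ⋂ c : {c // c < d}, ⋃ b : {b // c.1 < b ∧ L d b}, val (H b.1)) ≤ ε := by
  haveI : Countable {c : Om // c < d} := countable_Iio d
  rw [diff_iInter]
  rw [Directed.measure_iUnion]
  · refine iSup_le fun c => ?_
    obtain ⟨F, hF, hF'⟩ := hd c.1 c.2
    refine (measure_mono ?_).trans hF'
    intro x hx
    refine ⟨hx.1, fun hx' => hx.2 ?_⟩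
    simp only [mem_iUnion] at hx' ⊢
    obtain ⟨b, hb, hxb⟩ := hx'
    exact ⟨⟨b, hF b hb⟩, hxb⟩
  · apply Monotone.directed_le
    intro c c' hcc x hx
    refine ⟨hx.1, fun hx' => hx.2 ?_⟩
    simp only [mem_iUnion] at hx' ⊢
    obtain ⟨b, hxb⟩ := hx'
    exact ⟨⟨b.1, lt_of_le_of_lt hcc b.2.1, b.2.2⟩, hxb⟩

/-- a condition almost contained in the `limsup` forces that the ladder meets the named set
cofinally -/
theorem guess_force {L : Om → Om → Prop} (hL : ∀ d a, L d a → a < d) {d : Om}
    (H : Om → Set (MAlg μ)) {r : MAlg μ}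
    (hr : μ (r.s \ ⋂ c : {c // c < d}, ⋃ b : {b // c.1 < b ∧ L d b}, val (H b.1)) = 0)
    {c : Om} (hc : c < d) : r ∈ fex fun b : Om => fand (fground (c < b))
      (fand (meets {_q : MAlg μ | L d b}) (meets (H b))) := by
  refine mem_fex.2 fun u hu => ?_
  have h1 : μ (u.s \ ⋃ b : {b // c < b ∧ L d b}, val (H b.1)) = 0 := by
    refine null_diff_trans hu (null_diff_trans hr (null_diff_of_subset ?_))
    exact iInter_subset (fun c : {c // c < d} => ⋃ b : {b // c.1 < b ∧ L d b}, val (H b.1)) ⟨c, hc⟩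
  haveI : Countable {b : Om // c < b ∧ L d b} := by
    haveI := countable_Iio d
    exact Function.Injective.countable (f := fun b : {b : Om // c < b ∧ L d b} =>
      (⟨b.1, hL d b.1 b.2.2⟩ : {b : Om // b < d})) fun a b h => Subtype.ext (by simpa using h)
  have h2 : ∃ b : {b // c < b ∧ L d b}, μ (u.s ∩ val (H b.1)) ≠ 0 := by
    by_contra hcon
    push Not at hcon
    apply u.pos
    have h3 : u.s ⊆ (u.s \ ⋃ b : {b // c < b ∧ L d b}, val (H b.1)) ∪
        ⋃ b : {b // c < b ∧ L d b}, u.s ∩ val (H b.1) := by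
      intro x hx
      by_cases hx' : x ∈ ⋃ b : {b // c < b ∧ L d b}, val (H b.1)
      · right
        obtain ⟨b, hb⟩ := mem_iUnion.1 hx'
        exact mem_iUnion.2 ⟨b, hx, hb⟩
      · exact Or.inl ⟨hx, hx'⟩
    exact measure_mono_null h3 (measure_union_null h1 (measure_iUnion_null hcon))
  obtain ⟨b, hb⟩ := h2
  refine ⟨u.inter _ (val_meas _) hb, u.inter_le _ _ _, b.1, b.2.1, meets_cst.2 b.2.2, ?_⟩
  rw [mem_meets]
  exact null_diff_of_subset inter_subset_right

theorem ladder_forced {L : Om → Om → Prop} (hL : FinLadder L) (p : MAlg μ) :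
    p ∈ LadderN fun d a => {_q : MAlg μ | L d a} := by
  classical
  refine ⟨fun d a => mem_fimp.2 fun q _ hq => ⟨q, le_rfl, hL.1 d a (meets_cst.1 hq)⟩,
    fun d c => mem_fimp.2 fun q _ hq => ⟨q, le_rfl, ?_⟩, fun H K => ?_⟩
  · obtain ⟨F, hF⟩ := hL.2.1 d c hq
    refine mem_fex.2 fun r _ => ⟨r, le_rfl, F, fun a => mem_fimp.2 fun s _ hs => ⟨s, le_rfl, ?_⟩⟩
    exact mem_fimp.2 fun t _ ht => ⟨t, le_rfl, hF a (meets_cst.1 hs) ht⟩
  · refine mem_fimp.2 fun p1 _ hH => ⟨p1, le_rfl, mem_fimp.2 fun p2 hp2 hK => ⟨p2, le_rfl, ?_⟩⟩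
    intro e
    refine mem_fex.2 fun q hq => ?_
    have hHq : ∀ a : Om, q ∈ fex fun b : Om => fand (fground (a < b)) (meets (H b)) := fun a =>
      (reg_fex _).1 _ (hH a) q (hq.trans hp2)
    have hKq : ∀ a : Om, q ∈ fex fun b : Om => fand (fground (a < b)) (meets (K b)) := fun a =>
      (reg_fex _).1 _ (hK a) q hq
    set ε : ℝ≥0∞ := μ q.s / 4 with hε
    have hε0 : ε ≠ 0 := (ENNReal.div_pos q.pos (by simp)).ne'
    choose F hF hF' using fun a => fin_approx (fun b => a < b) H (hHq a) hε0
    choose G hG hG' using fun a => fin_approx (fun b => a < b) K (hKq a) hε0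
    obtain ⟨d, hed, hd⟩ := hL.2.2 (fun a => F a ∪ G a) (fun a x hx => by
      rcases Finset.mem_union.1 hx with h | h
      · exact hF a x h
      · exact hG a x h) e
    set EH : Set Ω := ⋂ c : {c // c < d}, ⋃ b : {b // c.1 < b ∧ L d b}, val (H b.1) with hEH
    set EK : Set Ω := ⋂ c : {c // c < d}, ⋃ b : {b // c.1 < b ∧ L d b}, val (K b.1) with hEK
    have h1 : μ (q.s \ EH) ≤ ε := by
      refine guess_aux H q.s ε fun c hc => ?_
      obtain ⟨a, hca, -, ha⟩ := hd c hc
      exact ⟨F a, fun b hb => ⟨hca.trans (hF a b hb), ha b (Finset.mem_union_left _ hb)⟩,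
        (hF' a).le⟩
    have h2 : μ (q.s \ EK) ≤ ε := by
      refine guess_aux K q.s ε fun c hc => ?_
      obtain ⟨a, hca, -, ha⟩ := hd c hc
      exact ⟨G a, fun b hb => ⟨hca.trans (hG a b hb), ha b (Finset.mem_union_right _ hb)⟩,
        (hG' a).le⟩
    have hcount : ∀ c : Om, Countable {b : Om // c < b ∧ L d b} := by
      intro c
      haveI := countable_Iio d
      exact Function.Injective.countable (f := fun b : {b : Om // c < b ∧ L d b} =>
        (⟨b.1, hL.1 d b.1 b.2.2⟩ : {b : Om // b < d})) fun a b h => Subtype.ext (by simpa using h)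
    haveI : Countable {c : Om // c < d} := countable_Iio d
    have hEHm : MeasurableSet EH := MeasurableSet.iInter fun c => by
      haveI := hcount c.1
      exact MeasurableSet.iUnion fun b => val_meas _
    have hEKm : MeasurableSet EK := MeasurableSet.iInter fun c => by
      haveI := hcount c.1
      exact MeasurableSet.iUnion fun b => val_meas _
    have h3 : μ (q.s ∩ (EH ∩ EK)) ≠ 0 := by
      intro h0
      have h4 : q.s ⊆ (q.s ∩ (EH ∩ EK)) ∪ ((q.s \ EH) ∪ (q.s \ EK)) := by
        intro x hx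
        by_cases hxH : x ∈ EH
        · by_cases hxK : x ∈ EK
          · exact Or.inl ⟨hx, hxH, hxK⟩
          · exact Or.inr (Or.inr ⟨hx, hxK⟩)
        · exact Or.inr (Or.inl ⟨hx, hxH⟩)
      have h5 : μ q.s ≤ ε + ε := by
        calc μ q.s ≤ μ (q.s ∩ (EH ∩ EK)) + μ ((q.s \ EH) ∪ (q.s \ EK)) :=
              (measure_mono h4).trans (measure_union_le _ _)
          _ = μ ((q.s \ EH) ∪ (q.s \ EK)) := by rw [h0, zero_add]
          _ ≤ μ (q.s \ EH) + μ (q.s \ EK) := measure_union_le _ _
          _ ≤ ε + ε := add_le_add h1 h2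
      have h6 : ε + ε < μ q.s := by
        have h7 : ε + ε = μ q.s / 2 := by
          rw [hε, ← ENNReal.add_div, ← two_mul]
          rw [show (4 : ℝ≥0∞) = 2 * 2 by norm_num]
          exact ENNReal.mul_div_mul_left _ _ (by simp) (by simp)
        rw [h7]
        exact ENNReal.half_lt_self q.pos (measure_ne_top _ _)
      exact absurd h5 (not_le.2 h6)
    refine ⟨q.inter _ (hEHm.inter hEKm) h3, q.inter_le _ _ _, d, hed, ?_⟩
    intro c
    refine mem_fimp.2 fun r hr hc => ⟨r, le_rfl, ?_, ?_⟩
    · exact guess_force hL.1 H (null_diff_trans hr (null_diff_of_subset fun x hx => hx.2.1)) hc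
    · exact guess_force hL.1 K (null_diff_trans hr (null_diff_of_subset fun x hx => hx.2.2)) hc

end

section

variable {X : Type}

/-- the random function with values `r n < 2 ^ n` -/
noncomputable def rr (e : ℕ × ℕ → X) (ω : X → Bool) (n : ℕ) : ℕ :=
  (Fintype.equivFin (Fin n → Bool) fun i => ω (e (n, i))).val

theorem rr_lt (e : ℕ × ℕ → X) (ω : X → Bool) (n : ℕ) : rr e ω n < 2 ^ n := by
  have h := (Fintype.equivFin (Fin n → Bool) fun i => ω (e (n, i))).isLt
  have h2 : Fintype.card (Fin n → Bool) = 2 ^ n := by simp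
  rw [← h2]
  exact h

theorem rr_meas (e : ℕ × ℕ → X) (n : ℕ) : Measurable fun ω => rr e ω n := by
  have h1 : Measurable fun (ω : X → Bool) (i : Fin n) => ω (e (n, i)) :=
    measurable_pi_lambda _ fun i => measurable_pi_apply _
  have h2 : Measurable fun v : Fin n → Bool =>
    (Fintype.equivFin (Fin n → Bool) v).val := measurable_of_countable _
  exact h2.comp h1

/-- an independent value is guessed with small probability -/
theorem rr_match {e : ℕ × ℕ → X} (he : Function.Injective e) {S : Set X} (heS : ∀ t, e t ∉ S)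
    (n : ℕ) (v : (X → Bool) → ℕ) (hv : ∀ k, MeasurableSet[mA S] {ω | v ω = k}) :
    coins X {ω | v ω = rr e ω n} ≤ (2⁻¹ : ℝ≥0∞) ^ n := by
  classical
  let E := Fintype.equivFin (Fin n → Bool)
  let v' : (X → Bool) → Fin n → Bool := fun ω =>
    if h : v ω < Fintype.card (Fin n → Bool) then E.symm ⟨v ω, h⟩ else fun _ => true
  have h1 := coins_match (X := X) (m := n) (fun i => e (n, i))
    (fun i j hij => by simpa [Fin.ext_iff] using he hij) S (fun i => heS _) v' (by
      intro s
      have : {ω | v' ω = s} = {ω | v ω = (E s).val} ∪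
          ⋃ k : ℕ, ⋃ _ : ¬ k < Fintype.card (Fin n → Bool) ∧ s = fun _ => true, {ω | v ω = k} := by
        ext ω
        simp only [mem_setOf_eq, mem_union, mem_iUnion, exists_prop, v']
        by_cases h : v ω < Fintype.card (Fin n → Bool)
        · rw [dif_pos h]
          constructor
          · rintro rfl
            left
            simp
          · rintro (h2 | ⟨k, ⟨hk, -⟩, rfl⟩)
            · have : (⟨v ω, h⟩ : Fin _) = E s := Fin.ext h2
              rw [this]; simp
            · exact absurd h hk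
        · rw [dif_neg h]
          constructor
          · rintro rfl
            exact Or.inr ⟨v ω, ⟨h, rfl⟩, rfl⟩
          · rintro (h2 | ⟨k, ⟨-, rfl⟩, -⟩)
            · exact absurd (h2 ▸ (E s).isLt) h
            · rfl
      rw [this]
      exact (hv _).union (MeasurableSet.iUnion fun k => MeasurableSet.iUnion fun _ => hv k))
    univ MeasurableSet.univ
  rw [measure_univ, one_mul, univ_inter] at h1
  refine (measure_mono ?_).trans h1
  intro ω hω i
  have h2 : v ω = (E fun i => ω (e (n, i))).val := hω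
  have h3 : v ω < Fintype.card (Fin n → Bool) := by rw [h2]; exact (E _).isLt
  simp only [v']
  rw [dif_pos h3]
  have h4 : (⟨v ω, h3⟩ : Fin _) = E fun i => ω (e (n, i)) := Fin.ext h2
  rw [h4]; simp

theorem evade_forced (hX : (ℵ₁ : Cardinal.{0}) < #X) (p : MAlg (coins X)) :
    p ∈ EvadeN (MAlg (coins X)) := by
  classical
  intro x
  refine mem_fimp.2 fun q _ hq => ⟨q, le_rfl, ?_⟩
  -- the support
  choose C hC hCm using fun t : Om × ℕ × ℕ => exists_countable (val_meas (x t.1 t.2.1 t.2.2))
  set S : Set X := ⋃ t, C t with hS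
  have hScard : #S ≤ ℵ₁ := by
    rw [hS]
    refine (Cardinal.mk_iUnion_le_sum_mk).trans ?_
    refine (Cardinal.sum_le_sum _ (fun _ => ℵ₀) fun t => ?_).trans ?_
    · exact Cardinal.mk_le_aleph0_iff.2 (hC t)
    · rw [Cardinal.sum_const']
      simp
  have hinf : (Sᶜ : Set X).Infinite := by
    intro hfin
    have h1 : #X ≤ ℵ₁ := by
      rw [← Cardinal.mk_sum_compl S]
      exact Cardinal.add_le_of_le (Cardinal.aleph0_le_aleph 1) hScard
        ((Cardinal.lt_aleph0_iff_set_finite.2 hfin).le.trans (Cardinal.aleph0_le_aleph 1))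
    exact absurd h1 (not_le.2 hX)
  haveI := hinf.to_subtype
  let e : ℕ × ℕ → X := fun t => (Infinite.natEmbedding (Sᶜ : Set X) (Encodable.encode t)).1
  have he : Function.Injective e := by
    intro a b h
    exact Encodable.encode_injective ((Infinite.natEmbedding _).injective (Subtype.ext h))
  have heS : ∀ t, e t ∉ S := fun t => (Infinite.natEmbedding (Sᶜ : Set X) (Encodable.encode t)).2
  have hrm : ∀ n k, MeasurableSet {ω | rr e ω n = k} := fun n k =>
    rr_meas e n (measurableSet_singleton k)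
  refine mem_fex.2 fun u hu => ⟨u, le_rfl, fun n k => cst {ω | rr e ω n = k}, ?_, ?_, ?_⟩
  · refine ⟨fun n => mem_fex.2 fun r _ => ?_, fun n k k' => mem_fimp.2 fun r _ hr => ?_⟩
    · have h1 : ∃ a, coins X (r.s ∩ {ω | rr e ω n = a}) ≠ 0 := by
        by_contra hcon
        push Not at hcon
        apply r.pos
        have : r.s ⊆ ⋃ a, r.s ∩ {ω | rr e ω n = a} := fun ω hω =>
          mem_iUnion.2 ⟨rr e ω n, hω, rfl⟩
        exact measure_mono_null this (measure_iUnion_null hcon)
      obtain ⟨a, ha⟩ := h1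
      refine ⟨r.inter _ (hrm n a) ha, r.inter_le _ _ _, a, ?_⟩
      rw [mem_meets_cst (hrm n a)]
      exact null_diff_of_subset inter_subset_right
    · obtain ⟨h1, h2⟩ := hr
      rw [mem_meets_cst (hrm n k)] at h1
      rw [mem_meets_cst (hrm n k')] at h2
      by_contra hcon
      push Not at hcon
      have hne : k ≠ k' := hcon r le_rfl
      refine r.false_of_disj h1 h2 ?_
      have : {ω | rr e ω n = k} ∩ {ω | rr e ω n = k'} = ∅ := by
        ext ω
        simp only [mem_inter_iff, mem_setOf_eq, mem_empty_iff_false, iff_false, not_and]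
        intro h1 h2
        exact hne (h1.symm.trans h2)
      rw [this]; simp
  · intro n k
    refine mem_fimp.2 fun s _ hs => ⟨s, le_rfl, ?_⟩
    rw [mem_meets_cst (hrm n k)] at hs
    change k < 2 ^ n
    by_contra hkn
    apply s.pos
    have : s.s ⊆ s.s \ {ω | rr e ω n = k} := by
      intro ω hω
      refine ⟨hω, fun h1 => hkn ?_⟩
      have h2 : rr e ω n = k := h1
      rw [← h2]
      exact rr_lt e ω n
    exact measure_mono_null this hs
  · intro a
    have hxm : ∀ n k, MeasurableSet[mA S] (val (x a n k)) := fun n k =>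
      mA_mono (subset_iUnion C (a, n, k)) _ (hCm (a, n, k))
    -- the value of `x a n`
    let v : ℕ → (X → Bool) → ℕ := fun n ω =>
      if h : ∃ k, ω ∈ val (x a n k) then Nat.find h else 0
    have hvm : ∀ n k, MeasurableSet[mA S] {ω | v n ω = k} := by
      intro n k
      have : {ω | v n ω = k} = (val (x a n k) ∩ ⋂ j ∈ Finset.range k, (val (x a n j))ᶜ) ∪
          ⋃ _ : k = 0, ⋂ j, (val (x a n j))ᶜ := by
        ext ω
        simp only [mem_setOf_eq, mem_union, mem_inter_iff, mem_iInter, Finset.mem_range,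
          mem_compl_iff, mem_iUnion, exists_prop, v]
        by_cases h : ∃ k, ω ∈ val (x a n k)
        · rw [dif_pos h, Nat.find_eq_iff h]
          constructor
          · intro h1
            exact Or.inl h1
          · rintro (h1 | ⟨-, h1⟩)
            · exact h1
            · obtain ⟨k, hk⟩ := h
              exact absurd hk (h1 k)
        · rw [dif_neg h]
          push Not at h
          constructor
          · intro h1
            exact Or.inr ⟨h1.symm, h⟩
          · rintro (h1 | ⟨h1, -⟩)
            · exact absurd h1.1 (h k)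
            · exact h1.symm
      rw [this]
      refine MeasurableSet.union ((hxm n k).inter (MeasurableSet.iInter fun j =>
        MeasurableSet.iInter fun _ => (hxm n j).compl)) (MeasurableSet.iUnion fun _ =>
        MeasurableSet.iInter fun j => (hxm n j).compl)
    -- Borel-Cantelli
    have hBC : ∀ᵐ ω ∂(coins X), ∀ᶠ n in atTop, ω ∉ {ω | v n ω = rr e ω n} := by
      apply ae_eventually_notMem
      refine ne_top_of_le_ne_top ?_ (ENNReal.tsum_le_tsum fun n => rr_match he heS n (v n) (hvm n))
      rw [ENNReal.tsum_geometric]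
      simp
    -- functionality
    have hfun : ∀ᵐ ω ∂(coins X), ω ∈ q.s → ∀ n k k', ω ∈ val (x a n k) → ω ∈ val (x a n k') →
        k = k' := by
      have h1 : ∀ n k k', k ≠ k' → coins X (q.s ∩ (val (x a n k) ∩ val (x a n k'))) = 0 := by
        intro n k k' hkk
        refine inter_null_of_imp (val_meas _) (val_meas _) hkk fun t ht h4 h5 => ?_
        exact IsFun_fun (x a) q (hq a) t ht n k k' (mem_meets.2 h4) (mem_meets.2 h5)
      have h2 : ∀ n k k', ∀ᵐ ω ∂(coins X), k ≠ k' → ω ∉ q.s ∩ (val (x a n k) ∩ val (x a n k')) := by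
        intro n k k'
        by_cases hkk : k = k'
        · exact Eventually.of_forall fun ω h => absurd hkk h
        · have := measure_eq_zero_iff_ae_notMem.1 (h1 n k k' hkk)
          filter_upwards [this] with ω hω _
          exact hω
      have h3 : ∀ᵐ ω ∂(coins X), ∀ n k k', k ≠ k' →
          ω ∉ q.s ∩ (val (x a n k) ∩ val (x a n k')) := by
        rw [ae_all_iff]; intro n
        rw [ae_all_iff]; intro k
        rw [ae_all_iff]; intro k'
        exact h2 n k k'
      filter_upwards [h3] with ω hω hωq n k k' h4 h5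
      by_contra hne
      exact hω n k k' hne ⟨hωq, h4, h5⟩
    -- the good sets
    let Good : ℕ → Set (X → Bool) := fun m =>
      ⋂ n, ⋂ _ : m ≤ n, ⋂ k, (val (x a n k) ∩ {ω | rr e ω n = k})ᶜ
    have hGm : ∀ m, MeasurableSet (Good m) := fun m => MeasurableSet.iInter fun n =>
      MeasurableSet.iInter fun _ => MeasurableSet.iInter fun k =>
        ((val_meas _).inter (hrm n k)).compl
    have hGood : ∀ᵐ ω ∂(coins X), ω ∈ q.s → ∃ m, ω ∈ Good m := by
      filter_upwards [hBC, hfun] with ω h1 h2 hωq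
      obtain ⟨m, hm⟩ := eventually_atTop.1 h1
      refine ⟨m, ?_⟩
      simp only [Good, mem_iInter, mem_compl_iff, mem_inter_iff, mem_setOf_eq, not_and]
      intro n hn k hk hrk
      apply hm n hn
      simp only [mem_setOf_eq, v]
      have hex : ∃ k, ω ∈ val (x a n k) := ⟨k, hk⟩
      rw [dif_pos hex, hrk]
      exact h2 hωq n _ _ (Nat.find_spec hex) hk
    refine mem_fex.2 fun w hw => ?_
    have h1 : ∃ m, coins X (w.s ∩ Good m) ≠ 0 := by
      by_contra hcon
      push Not at hcon
      apply w.pos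
      have h2 : coins X (w.s \ q.s) = 0 := hw.trans hu
      have h3 : ∀ᵐ ω ∂(coins X), ω ∉ w.s := by
        filter_upwards [hGood, measure_eq_zero_iff_ae_notMem.1 h2,
          measure_eq_zero_iff_ae_notMem.1 (measure_iUnion_null hcon)] with ω h4 h5 h6 hωw
        have hωq : ω ∈ q.s := by
          by_contra hcon'
          exact h5 ⟨hωw, hcon'⟩
        obtain ⟨m, hm⟩ := h4 hωq
        exact h6 (mem_iUnion.2 ⟨m, hωw, hm⟩)
      exact measure_eq_zero_iff_ae_notMem.2 h3
    obtain ⟨m, hm⟩ := h1
    refine ⟨w.inter _ (hGm m) hm, w.inter_le _ _ _, m, fun n => mem_fimp.2 fun t ht hmn =>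
      ⟨t, le_rfl, fun k y hy hyk => ?_⟩⟩
    obtain ⟨hy1, hy2⟩ := hyk
    rw [mem_meets] at hy1
    rw [mem_meets_cst (hrm n k)] at hy2
    have hy3 : coins X (y.s \ (val (x a n k) ∩ {ω | rr e ω n = k})) = 0 := by
      rw [diff_inter]
      exact measure_union_null hy1 hy2
    have hy4 : coins X (y.s \ Good m) = 0 :=
      null_diff_trans (hy.trans ht) (null_diff_of_subset inter_subset_right)
    refine y.false_of_disj hy3 hy4 ?_
    have : (val (x a n k) ∩ {ω | rr e ω n = k}) ∩ Good m = ∅ := by
      ext ω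
      simp only [mem_inter_iff, mem_empty_iff_false, iff_false, not_and]
      intro h5 h6
      have h7 := mem_iInter.1 (mem_iInter.1 (mem_iInter.1 h6 n) hmn) k
      exact h7 h5
    rw [this]; simp

/-- Adding at least `ℵ₂` random reals to a model of diamond forces `Hyp`. -/
theorem hyp_forced (h : Diamond) (hX : (ℵ₁ : Cardinal.{0}) < #X) (p : MAlg (coins X)) :
    p ∈ HypN (MAlg (coins X)) := by
  obtain ⟨L, hL⟩ := exists_finLadder h
  exact ⟨mem_fex.2 fun q _ => ⟨q, le_rfl, _, ladder_forced hL q⟩, evade_forced hX p⟩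

end

/-- The conclusion. -/
theorem conclusion (h : Hyp) : (∃ (X : Type) (_ : TopologicalSpace X), #X = ℵ₁ ∧
    T2Space X ∧ NormalSpace X ∧ ¬ CountablyParacompact X ∧ FirstCountableTopology X ∧
    ∀ x : X, ∃ U : Set X, IsOpen U ∧ U.Countable ∧ x ∈ U) ∧ ¬ ∃ L : Set ℝ, LusinSet L := by
  obtain ⟨⟨A, hA⟩, hE⟩ := h
  exact ⟨exists_dowker hA, no_lusin hE⟩

end Pool.Agent.R582.Dow
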